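import Mathlib
import Pool.Agent.Y592.OP.PolyRed
import Pool.Agent.Y592.OP.NPMem
import Pool.Agent.H622R2.CoNP

set_option autoImplicit false

/-!
# MP_636301_lc: ODD-PATHS is `NP`-complete
-/

namespace Pool.Agent.Results.MP_636301_lc.OddPathsNPComplete

open Pool.Agent.NPC Pool.Agent.Y592.OP

/-- ODD-PATHS is `NP`-complete (under polynomial-time many-one reductions); hence it is in `coNP`
exactly if `NP = coNP`. -/
theorem result :
    InNPP OddPaths ∧ NPHardP OddPaths ∧
      (InCoNPP OddPaths ↔ ∀ L : Set (List Bool), InNP L ↔ InCoNP L) :=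
  ⟨inNPP_oddPaths, hardI_oddPaths.toNPHardP,
    Pool.Agent.H622R2.inCoNP_iff_of_complete inNPP_oddPaths hardI_oddPaths.toNPHardP⟩

end Pool.Agent.Results.MP_636301_lc.OddPathsNPComplete
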