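import Mathlib
import Pool.Agent.Y592.OP.PolyRed
import Pool.Agent.Y592.OP.NPMem
import Pool.Agent.H622R2.CoNP

set_option autoImplicit false

/-!
# MP_636301_lc: the variant of ODD-PATHS with totally disjoint paths is `NP`-complete
-/

namespace Pool.Agent.Results.MP_636301_lc.TotallyDisjointVariant

open Pool.Agent.NPC Pool.Agent.Y592.OP

/-- The variant of ODD-PATHS in which no two of the `k` paths of odd length may have a common
vertex, not even a common end, is `NP`-complete (under polynomial-time many-one reductions);
hence it is in `coNP` exactly if `NP = coNP`. -/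
theorem result :
    InNPP DisjointOddPaths ∧ NPHardP DisjointOddPaths ∧
      (InCoNPP DisjointOddPaths ↔ ∀ L : Set (List Bool), InNP L ↔ InCoNP L) :=
  ⟨inNPP_disjointOddPaths, hardI_disjointOddPaths.toNPHardP,
    Pool.Agent.H622R2.inCoNP_iff_of_complete inNPP_disjointOddPaths
      hardI_disjointOddPaths.toNPHardP⟩

end Pool.Agent.Results.MP_636301_lc.TotallyDisjointVariant
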